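import Pool.Agent.N550.BC.Stm
import Pool.Agent.N550.TS.Flt
import Pool.Agent.N550.TS.Flm

/-!
# Project BC: flattening at an interior point of a ball (helper519)
-/

set_option autoImplicit false

open Set Filter Topology Metric Function MeasureTheory
open scoped Manifold ContDiff

noncomputable section

namespace Pool.Agent.N550.BC.C2a

open Pool.Agent.Y522 Pool.Agent.Y833.SH Pool.Agent.N550.SH Pool.Agent.N550.BC
open Pool.Agent.N550.TS Pool.Agent.N550.TS.Flm

/-! ### The radial map -/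

section radial

variable {n : ℕ} {θ : ℝ → ℝ} {d : ℝ}

theorem rad_far' (hd : 0 ≤ d) (h1 : ∀ s, d ^ 2 ≤ s → θ s = 1) {v : E n} (hv : d ≤ ‖v‖) :
    rad θ v = v := by
  unfold rad
  rw [h1 _ (pow_le_pow_left₀ hd hv 2), one_smul]

theorem rad_inj (hm : Monotone θ) (hp : ∀ s, 0 < s → 0 < θ s) :
    Injective (rad θ : E n → E n) := by
  intro v w hvw
  have h2 : θ (‖v‖ ^ 2) * ‖v‖ = θ (‖w‖ ^ 2) * ‖w‖ := by
    rw [← rad_norm hp, ← rad_norm hp, hvw]
  have h3 : ‖v‖ = ‖w‖ := by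
    rcases lt_trichotomy ‖v‖ ‖w‖ with h | h | h
    · exact absurd h2 (rho_lt hm hp (norm_nonneg _) h).ne
    · exact h
    · exact absurd h2 (rho_lt hm hp (norm_nonneg _) h).ne'
  rcases eq_or_ne w 0 with h | h
  · rw [h, norm_zero, norm_eq_zero] at h3
    rw [h3, h]
  · unfold rad at hvw
    rw [h3] at hvw
    exact smul_right_injective (E n)
      (hp _ (by have := norm_pos_iff.2 h; positivity)).ne' hvw

theorem rad_surj (hc : Continuous θ) (hd : 0 ≤ d) (h1 : ∀ s, d ^ 2 ≤ s → θ s = 1) :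
    Surjective (rad θ : E n → E n) := by
  intro w
  rcases eq_or_ne w 0 with h | h
  · refine ⟨0, ?_⟩
    unfold rad
    rw [h, smul_zero]
  · have hw : 0 < ‖w‖ := norm_pos_iff.2 h
    have hcr : Continuous fun s : ℝ => θ (s ^ 2) * s := by fun_prop
    have hle : (0 : ℝ) ≤ max d ‖w‖ := le_trans hd (le_max_left _ _)
    have h2 : ‖w‖ ∈ (fun s : ℝ => θ (s ^ 2) * s) '' Icc 0 (max d ‖w‖) := by
      refine intermediate_value_Icc hle hcr.continuousOn ⟨?_, ?_⟩
      · simp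
      · rw [h1 _ (pow_le_pow_left₀ hd (le_max_left _ _) 2), one_mul]
        exact le_max_right _ _
    obtain ⟨s, ⟨hs0, -⟩, hs⟩ := h2
    simp only at hs
    refine ⟨(s / ‖w‖) • w, ?_⟩
    unfold rad
    have h3 : ‖(s / ‖w‖) • w‖ = s := by
      rw [norm_smul, Real.norm_eq_abs, abs_of_nonneg (by positivity)]
      field_simp
    rw [h3, smul_smul]
    have h4 : θ (s ^ 2) * (s / ‖w‖) = 1 := by
      rw [← mul_div_assoc, hs, div_self hw.ne']
    rw [h4, one_smul]

/-- vectors of norm less than `d` go to such vectors -/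
theorem rad_lt (hm : Monotone θ) (hp : ∀ s, 0 < s → 0 < θ s)
    (h1 : ∀ s, d ^ 2 ≤ s → θ s = 1) {v : E n} (hv : ‖v‖ < d) : ‖rad θ v‖ < d := by
  rw [rad_norm hp]
  have h2 := rho_lt hm hp (norm_nonneg v) hv
  rwa [h1 _ le_rfl, one_mul] at h2

end radial

/-! ### The cell -/

theorem cell {M : Type} [TopologicalSpace M] [ChartedSpace (EuclideanHalfSpace 4) M]
    [IsManifold (𝓡∂ 4) ∞ M] (x₀ : M) (hx₀ : x₀ ∈ (𝓡∂ 4).interior M) :
    ∃ a : E 4 → M, Injective a ∧ a 0 = x₀ ∧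
      ∀ z, IsLocalDiffeomorphAt (𝓡 4) (𝓡∂ 4) ∞ a z := by
  let := csI (M := M) (𝓡∂ 4)
  have hmf : IsManifold (𝓡 4) ∞ ((𝓡∂ 4).interior M) := mfI (M := M) (𝓡∂ 4)
  obtain ⟨c, hc1, hc2, hc3⟩ := exists_cell0 (n := 4) (⟨x₀, hx₀⟩ : (𝓡∂ 4).interior M)
  refine ⟨fun z => (c z : M), Subtype.val_injective.comp hc1, ?_, fun z => ?_⟩
  · change (c 0 : M) = x₀
    rw [hc3]
  · exact IsLocalDiffeomorphAt.comp (𝓡∂ 4) M (hc2 z) (ldiff_val (𝓡∂ 4) (c z))

theorem range_nhds {M : Type} [TopologicalSpace M] [ChartedSpace (EuclideanHalfSpace 4) M]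
    {a : E 4 → M} {z : E 4} (h : IsLocalDiffeomorphAt (𝓡 4) (𝓡∂ 4) ∞ a z) :
    range a ∈ 𝓝 (a z) := by
  obtain ⟨Φ, hy, hΦ⟩ := h
  have ht : a z ∈ Φ.target := by
    rw [hΦ hy]
    exact Φ.map_source hy
  filter_upwards [Φ.open_target.mem_nhds ht] with y hy'
  exact ⟨Φ.symm y, (hΦ (Φ.map_target hy')).trans (Φ.right_inv hy')⟩

theorem reg_congr {M : Type} [TopologicalSpace M] [ChartedSpace (EuclideanHalfSpace 4) M]
    {h f : M → E 4} {x : M} (hf : f =ᶠ[𝓝 x] h) (hr : Reg h x) : Reg f x := by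
  refine ⟨?_, ?_⟩
  · filter_upwards [hr.1, hf.eventuallyEq_nhds] with y h1 h2
    exact h1.congr_of_eventuallyEq h2
  · rw [hf.mfderiv_eq]
    exact hr.2

theorem main : S_C2A := by
  intro M _ _ _ h x₀ hHB hx₀ hreg
  obtain ⟨hemb, hrange⟩ := hHB
  -- the homeomorphism
  let H : M ≃ₜ closedBall (0 : E 4) 1 := hemb.toHomeomorph.trans (Homeomorph.setCongr hrange)
  have hHh : ∀ x, (H x : E 4) = h x := fun x => rfl
  have : T2Space M := H.symm.t2Space
  have : CompactSpace (closedBall (0 : E 4) 1) :=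
    isCompact_iff_compactSpace.1 (isCompact_closedBall 0 1)
  have : CompactSpace M := H.symm.compactSpace
  have hE : Nontrivial (E 4) := inferInstance
  have hint : ∀ x, x ∈ (𝓡∂ 4).interior M ↔ ‖h x‖ < 1 := fun x => int_iff (𝓡∂ 4) hE H x
  have hmem : ∀ x, ‖h x‖ ≤ 1 := fun x => by
    rw [← mem_closedBall_zero_iff, ← hrange]
    exact mem_range_self x
  obtain ⟨y₀, hy₀⟩ : ∃ y₀, y₀ = h x₀ := ⟨_, rfl⟩
  have hy₀1 : ‖y₀‖ < 1 := by
    rw [hy₀]
    exact (hint x₀).1 hx₀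
  obtain ⟨d, hd⟩ : ∃ d : ℝ, d = (1 - ‖y₀‖) / 2 := ⟨_, rfl⟩
  have hd0 : 0 < d := by
    rw [hd]
    linarith
  -- the cell
  obtain ⟨a, ai, a0, ald⟩ := cell x₀ hx₀
  obtain ⟨J, hJ1, hJ2⟩ := inv_ld a ai ald
  have hhc : Continuous h := hemb.continuous
  have hac : Continuous a := continuous_iff_continuousAt.2 fun z => (ald z).contMDiffAt.continuousAt
  obtain ⟨g, hg⟩ : ∃ g : E 4 → E 4, g = fun z => h (a z) - y₀ := ⟨_, rfl⟩
  have hgz : ∀ z, g z = h (a z) - y₀ := fun z => by rw [hg]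
  have hgc : Continuous g := by
    rw [hg]
    fun_prop
  have hg0 : g 0 = 0 := by rw [hgz, a0, hy₀, sub_self]
  have hgs : ∀ z ∈ (univ : Set (E 4)), z ≠ 0 → ContDiffAt ℝ ∞ g z ∧ g z ≠ 0 := by
    intro z _ hz
    have haz : a z ≠ x₀ := by
      intro hcon
      rw [← a0] at hcon
      exact hz (ai hcon)
    refine ⟨?_, ?_⟩
    · have h1 : ContMDiffAt (𝓡∂ 4) (𝓡 4) ∞ h (a z) := (hreg _ haz).1.self_of_nhds
      have h2 : ContMDiffAt (𝓡 4) (𝓡 4) ∞ (fun z => h (a z)) z :=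
        ContMDiffAt.comp (g := h) z h1 (ald z).contMDiffAt
      rw [hg]
      exact (contMDiffAt_iff_contDiffAt.1 h2).sub contDiffAt_const
    · rw [hgz, hy₀, sub_ne_zero]
      exact fun hcon => haz (hemb.injective hcon)
  obtain ⟨θ, hθ, hθm, hθp, hθ1, hθs⟩ := Pool.Agent.N550.TS.Flt.main 4 g univ (d ^ 2) isOpen_univ
    (mem_univ _) (by positivity) hgc.continuousOn hg0 hgs
  -- the map
  obtain ⟨f, hf⟩ : ∃ f : M → E 4, f = fun x => y₀ + rad θ (h x - y₀) := ⟨_, rfl⟩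
  have hfx : ∀ x, f x = y₀ + rad θ (h x - y₀) := fun x => by rw [hf]
  have hradc : Continuous (rad θ : E 4 → E 4) := (rad_smooth hθ).continuous
  have hfc : Continuous f := by
    rw [hf]
    exact continuous_const.add (hradc.comp (hhc.sub continuous_const))
  have hfi : Injective f := by
    intro x y hxy
    rw [hfx, hfx] at hxy
    have h1 := rad_inj hθm hθp (add_left_cancel hxy)
    exact hemb.injective (sub_left_injective h1)
  have hball : ∀ v : E 4, ‖v‖ < d → ‖y₀ + v‖ ≤ 1 := by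
    intro v hv
    have h1 := norm_add_le y₀ v
    linarith
  have hfr : range f = closedBall 0 1 := by
    apply Subset.antisymm
    · rintro _ ⟨x, rfl⟩
      rw [mem_closedBall_zero_iff, hfx]
      rcases lt_or_ge ‖h x - y₀‖ d with h1 | h1
      · exact hball _ (rad_lt hθm hθp hθ1 h1)
      · rw [rad_far' hd0.le hθ1 h1, add_sub_cancel]
        exact hmem x
    · intro w hw
      rw [mem_closedBall_zero_iff] at hw
      obtain ⟨v, hv⟩ := rad_surj (n := 4) hθ.continuous hd0.le hθ1 (w - y₀)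
      have h1 : ‖y₀ + v‖ ≤ 1 := by
        rcases lt_or_ge ‖v‖ d with h1 | h1
        · exact hball _ h1
        · rw [rad_far' hd0.le hθ1 h1] at hv
          rw [hv, add_sub_cancel]
          exact hw
      have h2 : y₀ + v ∈ range h := by
        rw [hrange, mem_closedBall_zero_iff]
        exact h1
      obtain ⟨x, hx⟩ := h2
      refine ⟨x, ?_⟩
      rw [hfx, hx, add_sub_cancel_left, hv, add_sub_cancel]
  refine ⟨f, ⟨(hfc.isClosedEmbedding hfi).isEmbedding, hfr⟩, fun x => ?_, fun x hx => ?_⟩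
  · rcases eq_or_ne x x₀ with hx | hx
    · -- at the singular point
      have h1 : f =ᶠ[𝓝 x] fun y => y₀ + rad θ (g (J y)) := by
        have h2 : range a ∈ 𝓝 x := by
          rw [hx, ← a0]
          exact range_nhds (ald 0)
        filter_upwards [h2] with y hy
        obtain ⟨z, rfl⟩ := hy
        rw [hfx, hJ1, hgz]
      refine ContMDiffAt.congr_of_eventuallyEq ?_ h1
      have h4 : ContMDiffAt (𝓡∂ 4) (𝓡 4) ∞ J x := by
        have := (hJ2 0).1
        rw [a0] at this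
        rw [hx]
        exact this
      have h5 : J x = 0 := by
        rw [hx, ← a0, hJ1]
      have h6 : ContMDiffAt (𝓡 4) (𝓡 4) ∞ (fun z => y₀ + rad θ (g z)) (J x) := by
        rw [h5]
        exact (contDiffAt_const.add hθs).contMDiffAt
      exact ContMDiffAt.comp (g := fun z => y₀ + rad θ (g z)) x h6 h4
    · have h1 : ContMDiffAt (𝓡∂ 4) (𝓡 4) ∞ h x := (hreg x hx).1.self_of_nhds
      have h2 : ContDiff ℝ ∞ fun y : E 4 => y₀ + rad θ (y - y₀) :=
        contDiff_const.add ((rad_smooth hθ).comp (contDiff_id.sub contDiff_const))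
      rw [hf]
      exact ContMDiffAt.comp (g := fun y : E 4 => y₀ + rad θ (y - y₀)) x
        h2.contMDiff.contMDiffAt h1
  · have hxx : x ≠ x₀ := fun hcon => hx (hcon ▸ hx₀)
    refine reg_congr ?_ (hreg x hxx)
    have h1 : 1 ≤ ‖h x‖ := not_lt.1 fun hlt => hx ((hint x).2 hlt)
    have h2 : d < ‖h x - y₀‖ := by
      have h3 := norm_sub_norm_le (h x) y₀
      linarith
    have h3 : ∀ᶠ y in 𝓝 x, d < ‖h y - y₀‖ :=
      Filter.Tendsto.eventually_const_lt h2 ((hhc.sub continuous_const).norm.tendsto x)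
    filter_upwards [h3] with y hy
    rw [hfx, rad_far' hd0.le hθ1 hy.le, add_sub_cancel]

end Pool.Agent.N550.BC.C2a
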