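import Pool.Agent.N550.SH.Emb
import Pool.Agent.N550.TS.Stm2

/-!
# Project BC: statements

Smooth 4-balls with a smooth homeomorphism onto the standard ball: the exact characterisation.
-/

set_option autoImplicit false

open Set Filter Topology Metric Function MeasureTheory
open scoped Manifold ContDiff

noncomputable section

namespace Pool.Agent.N550.BC

open Pool.Agent.Y522

/-- `h` is smooth near `x` and its derivative at `x` is bijective (`x` may be a boundary point) -/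
def Reg {M : Type} [TopologicalSpace M] [ChartedSpace (EuclideanHalfSpace 4) M] (h : M → E 4)
    (x : M) : Prop :=
  (∀ᶠ y in 𝓝 x, ContMDiffAt (𝓡∂ 4) (𝓡 4) ∞ h y) ∧ Bijective (mfderiv (𝓡∂ 4) (𝓡 4) h x)

/-- `h` is a homeomorphism of `M` with the closed unit ball of `E 4` -/
def HB {M : Type} [TopologicalSpace M] (h : M → E 4) : Prop :=
  IsEmbedding h ∧ range h = closedBall 0 1

/-- the interior of `M` is diffeomorphic to `E 4` -/
def IntStd (M : Type) [TopologicalSpace M] [ChartedSpace (EuclideanHalfSpace 4) M] : Prop :=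
  ∃ j : E 4 → M, Injective j ∧ range j = (𝓡∂ 4).interior M ∧
    ∀ x, IsLocalDiffeomorphAt (𝓡 4) (𝓡∂ 4) ∞ j x

/-- Balls with standard interior are standard off one interior point. -/
def S_E2C : Prop :=
  ∀ (M : Type) [TopologicalSpace M] [ChartedSpace (EuclideanHalfSpace 4) M]
    [IsManifold (𝓡∂ 4) ∞ M] (h₀ : M → E 4), HB h₀ →
    (∀ x, x ∉ (𝓡∂ 4).interior M → Reg h₀ x) → IntStd M →
    ∃ (h : M → E 4) (x₀ : M), HB h ∧ x₀ ∈ (𝓡∂ 4).interior M ∧ ∀ x, x ≠ x₀ → Reg h x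

/-- Flattening at an interior point. -/
def S_C2A : Prop :=
  ∀ (M : Type) [TopologicalSpace M] [ChartedSpace (EuclideanHalfSpace 4) M]
    [IsManifold (𝓡∂ 4) ∞ M] (h : M → E 4) (x₀ : M), HB h → x₀ ∈ (𝓡∂ 4).interior M →
    (∀ x, x ≠ x₀ → Reg h x) →
    ∃ f : M → E 4, HB f ∧ ContMDiff (𝓡∂ 4) (𝓡 4) ∞ f ∧ ∀ x, x ∉ (𝓡∂ 4).interior M → Reg f x

/-- Balls in the Euclidean space have standard interior. -/
def S_D2E : Prop :=
  ∀ (M : Type) [TopologicalSpace M] [ChartedSpace (EuclideanHalfSpace 4) M]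
    [IsManifold (𝓡∂ 4) ∞ M] (h₀ k : M → E 4), HB h₀ →
    (∀ x, x ∉ (𝓡∂ 4).interior M → Reg h₀ x) → Injective k → ContMDiff (𝓡∂ 4) (𝓡 4) ∞ k →
    (∀ x, Bijective (mfderiv (𝓡∂ 4) (𝓡 4) k x)) → IntStd M

end Pool.Agent.N550.BC
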